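import Pool.Agent.TH457.HT.Lin

/-!
# A linear context-free language on which slow heads must travel

One linear context-free language `L` (over the bits and a separator) such that nonuniform
nondeterministic programs with `k` two-way heads, `s` states and arbitrary moves of the heads by at
most one position, which accept exactly the words of length `n` outside `L`, each within `T` steps,
satisfy `(k T + n) ^ 2 * k * (S + 1) * (log n + 1) ≥ n ^ 3 / 70000`, where the number `s * n ^ k`
of configurations is at most `2 ^ S`.

The grammar generates the words `α # u # β # u' # γ` with `u'` the reversal of the nonempty word
`u`.  Words which consist of blocks `# v v' #` (`v'` the reversal of the bits of a number `v`) are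
in `L` iff two numbers are equal.  The word is divided into `D` zones of `d` blocks, the
computation into windows whose number of steps is the length of a zone.  A window touches at most
`3 k` zones, so for a typical pair of zones `a`, `b` no window touches both and few windows touch
`b`.  The configurations at the borders of these windows are a transcript: words with the same
transcript and the same letters outside `a` and `b` can be crossed over, and a rectangle of
families of numbers without a common number is small.
-/

set_option autoImplicit false

namespace Pool.Agent.Results.MP_cb9e82_lc.HeadsTravel

open Pool.Agent.TH457.HT

/-- There is a linear context-free grammar `G` such that for all programs `P` with `k ≥ 1` two-way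
heads for words of length `n` and with at most `2 ^ S` configurations: if `P` accepts only words
outside the language of `G`, and accepts each such word within `T` steps, then
`n ^ 3 ≤ 70000 * k * (S + 1) * (log₂ n + 1) * (k * T + n) ^ 2`. -/
theorem result : ∃ G : LinGrammar (Option Bool),
    ∀ (n k T S : ℕ) (P : HeadProg (Option Bool) n k), 1 ≤ k →
      Fintype.card P.Q * n ^ k ≤ 2 ^ S →
      (∀ x : Fin n → Option Bool, P.Accepts x → List.ofFn x ∉ G.language) →
      (∀ x : Fin n → Option Bool, List.ofFn x ∉ G.language → P.AcceptsIn T x) →
      n ^ 3 ≤ 70000 * (k * (S + 1) * (Nat.log 2 n + 1) * (k * T + n) ^ 2) :=
  ⟨gram, fun _ _ T S P hk hS h1 h2 => lin_main P T S hk hS h1 h2⟩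

end Pool.Agent.Results.MP_cb9e82_lc.HeadsTravel
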