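import Pool.Agent.TH706.LS.Main

/-!
# A linear context-free language against deterministic and randomised linear time with a stack

One linear context-free language `L` over `{0, 1}`, that is, a language of a one-way
nondeterministic pushdown automaton whose pushdown makes one reversal.  The model for which we
prove that `L` is hard contains much more than (non-uniform) logarithmic space, except that the
input is read at most `k n` times (`k` any constant): the programs have random access to the input,
`n / D` bits of memory (linear space) and in addition a stack (pushdown store) of unlimited height
with any number of steps. With polynomially many nodes and polynomially many steps such programs
are the auxiliary pushdown automata of Cook, which contain all deterministic context-free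
languages and `L`. So here the nondeterminism of a pushdown automaton which makes one reversal
cannot be removed by a deterministic machine which has a stack too.  This is so even if the
complement of `L` may be accepted with randomness with one-sided error and success probability
`2 ^ (- n / D)`, or with `n / D` nondeterministic guesses in the beginning.

The starting result `LinearTimePrograms` is the case of one deterministic branching program
(without a stack); its language and its analysis are used: the words consist of letters with a
value, a flag and a target, and belong to `L` if for some flagged letter the parity of the number
of the pairs of ones at the same distance on the left and on the right of the letter differs from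
the target.  Here the computations with a stack and `k n` queries are cut into a constant number of
pieces which are determined by a few nodes and the answers to their own queries
(`Pool.Agent.W896.PD.blocks`), the queries are counted by the program
(`Pool.Agent.W902.PDS.Clock`), and the rectangle theorem is applied to the inputs accepted by one
program of the family, which may be a `2 ^ (- n / D)`-th part only of the popular class.
-/

set_option autoImplicit false

namespace Pool.Agent.Results.MP_cb9e82_lc.LinearTimeStack

open Pool.Agent.H822R5.LN (LinGrammar)
open Pool.Agent.H554R2.Sem (Pt)
open Pool.Agent.W896.PD (PP)

/-- There is a linear context-free grammar `G` over `{0, 1}` such that for every `k` there is `D`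
such that for all `n ≥ D`, `τ ≤ k n` and all finite families of deterministic programs `P ω` with
an unlimited stack and at most `2 ^ (n / D)` nodes, which output `false` after at most `τ` queries
(and any number of pushes and pops) only on words which are not in the language of `G`: there is a
word `x` of length `n` which is not in the language such that at most the `2 ^ (- n / D)`-th part
of the programs output `false` on `x` after at most `τ` queries. -/
theorem result : ∃ G : LinGrammar Bool, ∀ k : ℕ, ∃ D : ℕ, 0 < D ∧ ∀ n ≥ D, ∀ τ ≤ k * n,
    ∀ (Ω : Type) [Fintype Ω] (P : Ω → PP (Fin n) Bool),
      (∀ ω, Fintype.card (P ω).State ≤ 2 ^ (n / D)) →
      (∀ ω x l, (P ω).Comp x l false → l.length ≤ τ → List.ofFn x ∉ G.language) →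
      ∃ x : Pt n, List.ofFn x ∉ G.language ∧
        2 ^ (n / D) * Nat.card {ω // ∃ l, (P ω).Comp x l false ∧ l.length ≤ τ} ≤
          Fintype.card Ω :=
  Pool.Agent.TH706.LS.main

end Pool.Agent.Results.MP_cb9e82_lc.LinearTimeStack
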