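import Pool.Agent.TH679.LW.Asym
import Pool.Agent.TH679.LW.Upper

/-!
# Weighted linear languages need linear space

Let `A` be a language over a finite alphabet `Γ`. For weights `w (i, a)` of the letters `a` at the
positions `i` of a word of length `n` the weight of the cheapest word of length `n` in `A` is asked
for (`wordSum`, over the tropical semiring). This is the weighted form of the membership problem.
Programs compute step by step with a few registers, which hold real numbers or infinity, using the
operations `min` and `+` (a pure dynamic program; a step also can load a weight or a constant; the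
order of the steps may depend on `n` in any way).

For each linear language the usual dynamic program (which goes through the intervals in the order of
their lengths and keeps only the values of a bounded number of lengths) uses `O(n)` registers and
`O(n ^ 2)` steps. We show that this number of registers is optimal up to a factor `n ^ o(1)` for all
programs with a polynomial number of steps: there is one linear language, such that programs with at
most `n ^ (1 - ε)` registers have at least `n ^ Ω(log n)` steps, for each fixed `ε > 0`. The same
holds for programs over the nonnegative real numbers with `+` and `*`, for the sum over all words of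
length `n` in the language of the products of the weights of their letters.

The law behind this: if `n ≥ 140 d ^ 3 q 2 ^ d` then for `K` registers and `L` steps
`(2 ^ d) ^ κ ≤ 2 L ((⌈log₂ L⌉ + 1) K) ^ κ`, where `κ = ⌈log₄ (q + 3)⌉ - 1`.

Proof: The linear grammar reads the word from both ends. The words consist of blocks, which are lists
of options, and one option of each block is marked; the options of the blocks at the left end and at
the right end are compared in turns: the marked option of a block has to start with the list of
truth values with which the marked option of the previous block (on the other side) ends. If the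
weights of most of the letters are set to infinity and to 0, then the words (of finite weight) are
the colorings with two colors of the vertices `0, 1, 2, ...` of a strip with `d` rows, where `g` is
joined with `g + 1` and with `g + d`: the options of a block are the colorings of a window of at most
`d + 1` vertices. So the programs compute ground state energies (partition functions) of 2-spin
systems on strips with `2 ^ d` states of a column, from words of length about `2 ^ d`. For these
there is the law of my result `MP_4e849b_lc.SpinSystemRegisters`.
-/

set_option autoImplicit false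

namespace Pool.Agent.Results.MP_cb9e82_lc.LinearWordsRegisters

open Filter
open Pool.Agent.TH679.CF (wordSum SolvesMin SolvesSum)
open Pool.Agent.TH679.LW
open Pool.Agent.H564R3.PW (Instr exec)
open Pool.Agent.H822R5.LN (LinGrammar)
open scoped NNReal

/-- (1) There is a linear grammar `G` such that

(a) if a program with the registers `ρ` computes the weight of the cheapest word of length `n` of
the language, for all weights in the natural numbers, or the sum over the words of length `n` of the
language of the products of the weights of their letters, for all nonnegative real weights, and if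
`140 * d ^ 3 * q * 2 ^ d ≤ n`, then with `κ = ⌈log₄ (q + 3)⌉ - 1`
`(2 ^ d) ^ κ ≤ 2 * steps * ((⌈log₂ steps⌉ + 1) * registers) ^ κ`;

(b) for each `ε` there is `c > 0` such that for all large `n` such programs with at most
`n ^ (1 - ε)` registers have at least `n ^ (c log₂ n)` steps.

(2) For each linear grammar there is a constant `C` such that for all `n ≥ 1`, over each commutative
semiring with idempotent addition (for instance with `min` and `+`), there is a program with at most
`C * n` registers and `C * n ^ 2` steps which computes the sum over the words of length `n` of the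
language (the weight of the cheapest word). -/
theorem result :
    (∃ (Γ : Type) (_ : Fintype Γ) (_ : DecidableEq Γ) (G : LinGrammar Γ),
      (∀ d q n : ℕ, 1 ≤ d → 1 ≤ q → 140 * d ^ 3 * q * 2 ^ d ≤ n →
        ∀ (ρ : Type) [Fintype ρ] [DecidableEq ρ] (o : ρ),
        (∀ p, SolvesMin (Γ := Γ) G.language n p o → 1 ≤ p.length ∧
          (2 ^ d) ^ (Nat.clog 4 (q + 3) - 1) ≤ 2 * p.length *
            ((Nat.clog 2 p.length + 1) * Fintype.card ρ) ^ (Nat.clog 4 (q + 3) - 1)) ∧
        (∀ p, SolvesSum (Γ := Γ) G.language n p o → 1 ≤ p.length ∧
          (2 ^ d) ^ (Nat.clog 4 (q + 3) - 1) ≤ 2 * p.length *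
            ((Nat.clog 2 p.length + 1) * Fintype.card ρ) ^ (Nat.clog 4 (q + 3) - 1))) ∧
      (∀ ε : ℝ, 0 < ε → ε ≤ 1 → ∃ c : ℝ, 0 < c ∧ ∀ᶠ n : ℕ in atTop,
        ∀ (ρ : Type) [Fintype ρ] [DecidableEq ρ] (o : ρ),
          (Fintype.card ρ : ℝ) ≤ (n : ℝ) ^ (1 - ε) →
          (∀ p, SolvesMin (Γ := Γ) G.language n p o →
            (n : ℝ) ^ (c * Real.logb 2 n) ≤ p.length) ∧
          (∀ p, SolvesSum (Γ := Γ) G.language n p o →
            (n : ℝ) ^ (c * Real.logb 2 n) ≤ p.length))) ∧
    ∀ (Γ : Type) [Fintype Γ] (G : LinGrammar Γ), ∃ C : ℕ, ∀ n : ℕ, 1 ≤ n →
      ∃ (ρ : Type) (_ : Fintype ρ) (_ : DecidableEq ρ), Fintype.card ρ ≤ C * n ∧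
        ∀ (R : Type) [CommSemiring R], (∀ a : R, a + a = a) →
          ∃ (p : List (Instr R (Fin n × Γ) ρ)) (o : ρ), p.length ≤ C * n ^ 2 ∧
            ∀ w : Fin n × Γ → R, exec w p o = wordSum (Γ := Γ) G.language n w := by
  refine ⟨⟨Let, inferInstance, inferInstance, gram, ?_, ?_⟩, fun Γ _ G => upper G⟩
  · intro d q n hd hq hn ρ _ _ o
    exact ⟨fun p hp => lawMin hd hq hn p o hp, fun p hp => lawSum hd hq hn p o hp⟩
  · intro ε hε hε2
    obtain ⟨ν₀, hν₀⟩ := Pool.Agent.TH679.CF.exists_large ε hε
    refine ⟨ε ^ 2 / 400, by positivity, ?_⟩
    have hlarge : ∀ᶠ n : ℕ in atTop, (2 : ℝ) ^ ν₀ ≤ (n : ℝ) :=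
      tendsto_natCast_atTop_atTop.eventually_ge_atTop _
    filter_upwards [hlarge, eventually_ge_atTop 280] with n hn hn8 ρ _ _ o hK
    have hn0 : (0 : ℝ) < n := by
      have : 0 < n := by omega
      exact_mod_cast this
    have hν : ν₀ ≤ Real.logb 2 n := by
      rw [Real.le_logb_iff_rpow_le (by norm_num) hn0]
      exact hn
    obtain ⟨g1, g4, g2, g3⟩ := hν₀ _ hν
    refine ⟨fun p hp => ?_, fun p hp => ?_⟩
    · refine steps_ge hε hε2 g1 g4 g2 g3 (by omega) ?_ hK
        fun d q hd hq hdq => (lawMin hd hq hdq p o hp).2
      exact (lawMin (d := 1) (q := 1) le_rfl le_rfl (by norm_num; omega) p o hp).1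
    · refine steps_ge hε hε2 g1 g4 g2 g3 (by omega) ?_ hK
        fun d q hd hq hdq => (lawSum hd hq hdq p o hp).2
      exact (lawSum (d := 1) (q := 1) le_rfl le_rfl (by norm_num; omega) p o hp).1

end Pool.Agent.Results.MP_cb9e82_lc.LinearWordsRegisters
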