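import Pool.Agent.TH679.MW.Pal
import Pool.Agent.TH679.MW.FewBS

set_option autoImplicit false

/-!
# A linear language which is hard for decomposable programs with few registers

The linear grammar `pal`, with the rules `S → 0S0 | 1S1 | _S | S_ | m`, generates the palindromes
over the bits with a marker `m` in the centre and blanks anywhere.

A program has `K` registers with values in a commutative semiring `F` and the instructions `load` (an
arbitrary function of the letters at some positions), `lin` (a linear combination of registers) and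
`mul` (a product of two registers); the registers start with `0`.  It accepts a word if the value of
the output register is not `0`.  Over the natural numbers this is nondeterminism (linear
combinations) and conjunction (products), over fields there are cancellations.  We look at programs
in which the two factors of a product never both depend on the same position.  The usual dynamic
program for `pal` has this property, `O(n)` registers and `O(n ^ 2)` steps.

With at most `n ^ (1/2 - ε)` registers more than `n ^ (c log log n)` steps are necessary, and more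
than `n ^ (c log n)` steps if one factor of each product has read at most `n ^ (1 - ε)` positions, for
instance in branching programs (nondeterminism without conjunctions).

Proof idea.  The value of the output register is written as a sum of few products of functions of
disjoint sets of many positions (`Pool.Agent.TH679.MW`: heavy paths, cut at dyadic times), which do
not depend on the word.  Take a random half `Y` of the positions in both halves of the word and put
bits only at the positions of `Y` in the left half and at the other positions in the right half.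
Then the language has full rank, but each of the products has small rank.
-/

namespace Pool.Agent.Results.MP_cb9e82_lc.PalindromesFewRegisters

open Finset Pool.Agent.TH679.MW Pool.Agent.TH708.Ari Pool.Agent.TH708.Nar Filter
open Pool.Agent.H822R5.LN (LinGrammar)

/-- The programs over `F` for the words of length `n` which accept by a value different from `0`,
have no product both factors of which have read the same position, load only functions of at most
`n ^ (1 - ε)` positions and have at most `n ^ (1 / 2 - ε)` registers have more than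
`n ^ (ε / 128 * log (log n))` steps. -/
def Hard (F : Type) [CommSemiring F] (ε : ℝ) (n : ℕ) : Prop :=
  ∀ (K L : ℕ) (P : ℕ → Instr F (Fin n) Sym K) (out : Fin K),
    (∀ w : Fin n → Sym, run P w L out ≠ 0 ↔ List.ofFn w ∈ pal.language) →
    Multilinear P L (fun _ => True) →
    (∀ t < L, ∀ d S f, P t = .load d S f → (S.card : ℝ) ≤ (n : ℝ) ^ (1 - ε)) →
    (K : ℝ) ≤ (n : ℝ) ^ (1 / 2 - ε) →
    (n : ℝ) ^ (ε / 128 * Real.log (Real.log n)) < L

/-- The programs as in `Hard` in which, moreover, one factor of each product has read at most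
`n ^ (1 - ε)` positions (for instance branching programs) have more than
`n ^ (ε ^ 2 / 256 * log n)` steps. -/
def HardSkew (F : Type) [CommSemiring F] (ε : ℝ) (n : ℕ) : Prop :=
  ∀ (K L : ℕ) (P : ℕ → Instr F (Fin n) Sym K) (out : Fin K),
    (∀ w : Fin n → Sym, run P w L out ≠ 0 ↔ List.ofFn w ∈ pal.language) →
    Multilinear P L (fun _ => True) →
    (∀ t < L, ∀ d S f, P t = .load d S f → (S.card : ℝ) ≤ (n : ℝ) ^ (1 - ε)) →
    (∀ t < L, ∀ d a b, P t = .mul d a b →
      ((vars P t a).card : ℝ) ≤ (n : ℝ) ^ (1 - ε) ∨ ((vars P t b).card : ℝ) ≤ (n : ℝ) ^ (1 - ε)) →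
    (K : ℝ) ≤ (n : ℝ) ^ (1 / 2 - ε) →
    (n : ℝ) ^ (ε ^ 2 / 256 * Real.log n) < L

variable {h pad : ℕ}

/-- The tracked positions. -/
def pos (h pad : ℕ) : Fin h ⊕ Fin h → Fin (h + (1 + (h + pad)))
  | .inl i => Fin.castAdd _ i
  | .inr i => Fin.natAdd h (Fin.natAdd 1 (Fin.castAdd pad i))

/-- The word with bits at the positions in `Act` only. -/
def wd (h pad : ℕ) (Act : Finset (Fin h ⊕ Fin h)) (x : Fin h ⊕ Fin h → Bool) :
    Fin (h + (1 + (h + pad))) → Sym :=
  Fin.append (fun i => lt Act x (.inl i)) (Fin.append (fun _ => .mid)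
    (Fin.append (fun i => lt Act x (.inr i)) fun _ => .blank))

theorem pos_inj : Function.Injective (pos h pad) := by
  rintro (a | a) (b | b) hab
  · simp only [pos, Fin.ext_iff, Fin.val_castAdd] at hab
    exact congrArg _ (Fin.ext hab)
  · simp only [pos, Fin.ext_iff, Fin.val_castAdd, Fin.val_natAdd] at hab
    omega
  · simp only [pos, Fin.ext_iff, Fin.val_castAdd, Fin.val_natAdd] at hab
    omega
  · simp only [pos, Fin.ext_iff, Fin.val_castAdd, Fin.val_natAdd] at hab
    exact congrArg _ (Fin.ext (by omega))

theorem wd_subst (Act : Finset (Fin h ⊕ Fin h)) : Subst (pos h pad) (wd h pad Act) := by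
  intro x x' i
  refine Fin.addCases (fun i => ?_) (fun i => ?_) i
  · intro hx
    have := hx (.inl i) rfl
    simp only [wd, Fin.append_left, lt, this]
  · refine Fin.addCases (fun i => ?_) (fun i => ?_) i
    · intro _
      simp only [wd, Fin.append_right, Fin.append_left]
    · refine Fin.addCases (fun i => ?_) (fun i => ?_) i
      · intro hx
        have := hx (.inr i) rfl
        simp only [wd, Fin.append_right, Fin.append_left, lt, this]
      · intro _
        simp only [wd, Fin.append_right]

theorem wd_act (Act : Finset (Fin h ⊕ Fin h)) (x x' : Fin h ⊕ Fin h → Bool)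
    (hx : ∀ v ∈ Act, x v = x' v) : wd h pad Act x = wd h pad Act x' := by
  have h1 : ∀ v, lt Act x v = lt Act x' v := by
    intro v
    unfold lt
    by_cases hv : v ∈ Act
    · rw [if_pos hv, if_pos hv, hx v hv]
    · rw [if_neg hv, if_neg hv]
  unfold wd
  simp only [h1]

theorem wd_list (Act : Finset (Fin h ⊕ Fin h)) (x : Fin h ⊕ Fin h → Bool) :
    List.ofFn (wd h pad Act x) = ((List.finRange h).map Sum.inl).map (lt Act x) ++
      Sym.mid :: (((List.finRange h).map Sum.inr).map (lt Act x) ++
        List.replicate pad Sym.blank) := by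
  simp only [wd, List.ofFn_fin_append, List.map_map, List.ofFn_const, List.replicate_one,
    List.singleton_append]
  rw [List.ofFn_eq_map, List.ofFn_eq_map]
  rfl

theorem strip_replicate (pad : ℕ) : strip (List.replicate pad Sym.blank) = [] := by
  induction pad with
  | zero => rfl
  | succ p ih => rw [List.replicate_succ, strip_blank, ih]

theorem wd_mem (Act : Finset (Fin h ⊕ Fin h)) (x : Fin h ⊕ Fin h → Bool) :
    List.ofFn (wd h pad Act x) ∈ pal.language ↔
      (((List.finRange h).map Sum.inl).filter (· ∈ Act)).map x =
        (((List.finRange h).map Sum.inr).filter (· ∈ Act)).reverse.map x := by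
  rw [wd_list, mem_pal (mid_notMem _ _ _), strip_map, strip_append, strip_map, strip_replicate,
    List.append_nil, List.map_reverse]
  intro hm
  rw [List.mem_append] at hm
  rcases hm with hm | hm
  · exact mid_notMem _ _ _ hm
  · rw [List.mem_replicate] at hm
    exact absurd hm.2 (by simp)

theorem tr_card (S : Finset (Fin (h + (1 + (h + pad))))) : (tr (pos h pad) S).card ≤ S.card := by
  apply card_le_card_of_injOn (pos h pad)
  · intro v hv
    rw [mem_coe, mem_tr] at hv
    exact hv
  · exact pos_inj.injOn

theorem full {F : Type} [CommSemiring F] (hF : Faithful F) {K L : ℕ}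
    (P : ℕ → Instr F (Fin (h + (1 + (h + pad)))) Sym K) (out : Fin K)
    (hacc : ∀ w, run P w L out ≠ 0 ↔ List.ofFn w ∈ pal.language)
    (Y : Finset (Fin h ⊕ Fin h)) (hY : Y.card = h) :
    ∃ (Act : Finset (Fin h ⊕ Fin h)) (m : ℕ)
      (pt : (Fin h ⊕ Fin h → Bool) → Fin (h + (1 + (h + pad))) → Sym),
      Subst (pos h pad) pt ∧
      (∀ x x' : Fin h ⊕ Fin h → Bool, (∀ v ∈ Act, x v = x' v) → pt x = pt x') ∧
      Act.card ≤ 2 * m ∧ (∀ r, SRk Y r (fun x => run P (pt x) L out) → 2 ^ m ≤ r) ∧
      ∀ (ν : ℕ) (D : Finset (Fin h ⊕ Fin h)), Near (2 * ν) (D ∩ Act) Y →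
        Cent (4 * ν) (2 * (D.filter fun v => v.isRight).card) (Y ∩ D) := by
  refine ⟨act Y, (lA Y).length, wd h pad (act Y), wd_subst _, fun x x' hx => wd_act _ x x' hx,
    act_card Y hY, fun r hr => ?_, fun ν D hD => act_near Y ν D hD⟩
  have h1 := diag_rank hF Y (ι := Fin (lA Y).length → Bool) (along (lA Y))
    (along (lB Y).reverse) (fun x => run P (wd h pad (act Y) x) L out) (fun c c' => ?_) hr
  · simpa using h1
  · rw [hacc, wd_mem]
    have e1 : (((List.finRange h).map Sum.inl).filter (· ∈ act Y)).map
        (fun v => if v ∈ Y then along (lA Y) c v else along (lB Y).reverse c' v) =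
        List.ofFn c := by
      rw [← map_along (lA_nodup Y) rfl c]
      apply List.map_congr_left
      intro v hv
      rw [if_pos ((mem_lA Y).1 hv).1]
    have e2 : (((List.finRange h).map Sum.inr).filter (· ∈ act Y)).reverse.map
        (fun v => if v ∈ Y then along (lA Y) c v else along (lB Y).reverse c' v) =
        List.ofFn c' := by
      rw [← map_along (List.nodup_reverse.2 (lB_nodup Y))
        (by rw [List.length_reverse, lens Y hY]) c']
      apply List.map_congr_left
      intro v hv
      rw [if_neg ((mem_lB Y).1 (List.mem_reverse.1 hv)).1]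
    rw [e1, e2]
    exact List.ofFn_injective.eq_iff

theorem law (ε : ℝ) (hε : 0 < ε) (hε1 : ε ≤ 1 / 2) : ∃ n₀ : ℕ, ∀ n ≥ n₀, ∀ (F : Type)
    [CommSemiring F], Faithful F → Hard F ε n ∧ HardSkew F ε n := by
  obtain ⟨h₀, hfew⟩ := fewB (ε / 2) (by linarith) (by linarith)
  obtain ⟨h₁, hfewS⟩ := fewBS (ε / 2) (by linarith) (by linarith)
  have ht : Tendsto (fun N : ℕ => (N : ℝ) ^ (ε / 2)) atTop atTop :=
    (tendsto_rpow_atTop (by linarith)).comp tendsto_natCast_atTop_atTop
  obtain ⟨N₀, hN₀⟩ := eventually_atTop.1 (ht.eventually_ge_atTop 2)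
  refine ⟨2 * h₀ + 2 * h₁ + N₀ + 10, fun n hn F _ hF => ?_⟩
  obtain ⟨h, pad, hp, rfl⟩ : ∃ h pad, pad ≤ 1 ∧ n = h + (1 + (h + pad)) :=
    ⟨(n - 1) / 2, (n - 1) % 2, by omega, by omega⟩
  obtain ⟨t1, t2, t3⟩ := transfer hε hε1 (n := h + (1 + (h + pad))) (N := 2 * h) (by omega)
    (by omega) (by omega) (hN₀ _ (by omega))
  have t4 := transferS hε (n := h + (1 + (h + pad))) (N := 2 * h) (by omega)
    (by omega) (by omega)
  have hV : Fintype.card (Fin h ⊕ Fin h) = 2 * h := by
    rw [Fintype.card_sum, Fintype.card_fin]; ring
  have hle : ∀ S : Finset (Fin (h + (1 + (h + pad)))),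
      (S.card : ℝ) ≤ ((h + (1 + (h + pad)) : ℕ) : ℝ) ^ (1 - ε) →
      ((tr (pos h pad) S).card : ℝ) ≤ ((2 * h : ℕ) : ℝ) ^ (1 - ε / 2) := by
    intro S hS
    exact le_trans (by exact_mod_cast tr_card S) (hS.trans t2)
  constructor
  · intro K L P out hacc hm hl hK
    refine lt_of_le_of_lt t3 (hfew F (Fin (h + (1 + (h + pad)))) Sym (Fin h ⊕ Fin h) h K L P
      (pos h pad) out (fun D => 2 * (D.filter fun v => v.isRight).card) hV (by omega) ?_ ?_
      (hK.trans t1) fun Y hY => full hF P out hacc Y hY)
    · intro t ht d a b hP i _ hi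
      exact hm t ht d a b hP i trivial hi
    · intro t ht d S g hP
      exact hle S (hl t ht d S g hP)
  · intro K L P out hacc hm hl hb hK
    refine lt_of_le_of_lt t4 (hfewS F (Fin (h + (1 + (h + pad)))) Sym (Fin h ⊕ Fin h) h K L P
      (pos h pad) out (fun D => 2 * (D.filter fun v => v.isRight).card) hV (by omega) ?_ ?_ ?_
      (hK.trans t1) fun Y hY => full hF P out hacc Y hY)
    · intro t ht d a b hP i _ hi
      exact hm t ht d a b hP i trivial hi
    · intro t ht d S g hP
      exact hle S (hl t ht d S g hP)
    · intro t ht d a b hP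
      exact (hb t ht d a b hP).imp (hle _) (hle _)

/-- **Palindromes need many registers or many steps**, over each field, and over each commutative
semiring without zero divisors in which `a + b = 0` holds only for `a = b = 0` (the natural numbers,
`min` and `+`). -/
theorem result (ε : ℝ) (hε : 0 < ε) (hε1 : ε ≤ 1 / 2) : ∃ n₀ : ℕ, ∀ n ≥ n₀,
    (∀ (F : Type) [Field F], Hard F ε n ∧ HardSkew F ε n) ∧
    (∀ (F : Type) [CommSemiring F] [NoZeroDivisors F], (∀ a b : F, a + b = 0 → a = 0) →
      Hard F ε n ∧ HardSkew F ε n) := by
  obtain ⟨n₀, hn⟩ := law ε hε hε1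
  exact ⟨n₀, fun n h => ⟨fun F _ => hn n h F (faithful_field F),
    fun F _ _ hF => hn n h F (faithful_pos F hF)⟩⟩

end Pool.Agent.Results.MP_cb9e82_lc.PalindromesFewRegisters
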